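import Pool.Agent.D0H9.CX.Powz
import Pool.Agent.D0H67.CX.Lift

/-! # CX: POWM, the monodromy zeta functions of a power -/

set_option autoImplicit false
set_option linter.unusedSectionVars false
set_option linter.unusedVariables false

namespace Pool.Agent.D0H9.CX

open MvPolynomial Pool.Agent.W428.MOT Pool.Agent.TH192.MT Pool.Agent.TH192.DT
  Pool.Agent.D0H67.SUB Pool.Agent.D0H67.SUB.Lev Pool.Agent.D0H67.SUB.Shift
open Pool.Agent.D0H67.CX Pool.Agent.D0H87.CX.Rec

namespace Pow

variable {K : Type} [Field K] {σ J : Type}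

/-- the jets with given leading coefficients in degree `a` -/
def JE (g : J → MvPolynomial σ K) (p : Pt K σ) (y : J → AlgebraicClosure K) (a N : ℕ) :
    Set (Pt K (σ × Fin (N + 1))) :=
  {z | (∀ i, z (i, 0) = p i) ∧
    (∀ j, ∀ k < a, PowerSeries.coeff k (aeval (ar z) (g j)) = 0) ∧
    ∃ c : AlgebraicClosure K, c ≠ 0 ∧ ∀ j, PowerSeries.coeff a (aeval (ar z) (g j)) = c * y j}

theorem mem_powE (g : J → MvPolynomial σ K) {m : ℕ} (hm : 0 < m) (p : Pt K σ)
    (y : J → AlgebraicClosure K) (hy : y ≠ 0) (a : ℕ) {L : ℕ} (z : Pt K (σ × Fin (L + 1))) :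
    z ∈ JE (powG g m) p (fun q => ∏ k, y (q k)) (m * a) L ↔ z ∈ JE g p y a L := by
  constructor
  · rintro ⟨h0, h1, c, hc, h2⟩
    obtain ⟨j₀, hj₀⟩ := Function.ne_iff.1 hy
    have hj0 : y j₀ ≠ 0 := hj₀
    have hOS : z ∈ OS (powG g m) ({p} : Set (Pt K σ)) (m * a) L := by
      refine ⟨funext h0, h1, fun _ => j₀, ?_⟩
      rw [h2]
      exact mul_ne_zero hc (Finset.prod_ne_zero_iff.mpr fun _ _ => hj0)
    obtain ⟨-, -, h3, -⟩ := (mem_pow g hm _ _ z).1 hOS
    rw [Nat.mul_div_cancel_left _ hm] at h3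
    refine ⟨h0, h3, ?_⟩
    set Y : J → AlgebraicClosure K := fun j => PowerSeries.coeff a (aeval (ar z) (g j)) with hY
    have h4 : ∀ q : Fin m → J, ∏ k, Y (q k) = c * ∏ k, y (q k) := by
      intro q
      rw [← h2 q, aeval_pow]
      exact (coeff_prod a (fun k : Fin m => aeval (ar z) (g (q k))) (fun k => h3 (q k))).2.symm
    obtain ⟨m', rfl⟩ : ∃ m', m = m' + 1 := ⟨m - 1, by omega⟩
    have h5 : Y j₀ ^ (m' + 1) = c * y j₀ ^ (m' + 1) := by
      have := h4 fun _ => j₀
      simpa using this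
    have h6 : ∀ j, Y j * Y j₀ ^ m' = c * (y j * y j₀ ^ m') := by
      intro j
      have := h4 (Fin.cons j fun _ => j₀)
      rw [Fin.prod_univ_succ, Fin.prod_univ_succ] at this
      simpa using this
    have hY0 : Y j₀ ≠ 0 := by
      intro h
      rw [h, zero_pow (by omega)] at h5
      exact mul_ne_zero hc (pow_ne_zero _ hj0) h5.symm
    obtain ⟨e, he⟩ : ∃ e, Y j₀ = e * y j₀ := ⟨Y j₀ / y j₀, (div_mul_cancel₀ _ hj0).symm⟩
    have he0 : e ≠ 0 := by
      rintro rfl
      exact hY0 (by rw [he, zero_mul])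
    refine ⟨e, he0, fun j => ?_⟩
    change Y j = e * y j
    have h8 : Y j₀ ^ m' * y j₀ ^ (m' + 1) ≠ 0 :=
      mul_ne_zero (pow_ne_zero _ hY0) (pow_ne_zero _ hj0)
    apply mul_right_cancel₀ h8
    calc Y j * (Y j₀ ^ m' * y j₀ ^ (m' + 1)) = (Y j * Y j₀ ^ m') * y j₀ ^ (m' + 1) := by ring
      _ = (c * y j₀ ^ (m' + 1)) * (y j * y j₀ ^ m') := by rw [h6]; ring
      _ = Y j₀ * (Y j₀ ^ m' * (y j * y j₀ ^ m')) := by rw [← h5]; ring
      _ = (e * y j₀) * (Y j₀ ^ m' * (y j * y j₀ ^ m')) := by rw [← he]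
      _ = e * y j * (Y j₀ ^ m' * y j₀ ^ (m' + 1)) := by ring
  · rintro ⟨h0, h1, c, hc, h2⟩
    refine ⟨h0, fun q k hk => ?_, c ^ m, pow_ne_zero _ hc, fun q => ?_⟩
    · rw [aeval_pow]
      exact (coeff_prod a (fun k : Fin m => aeval (ar z) (g (q k))) (fun k => h1 (q k))).1 k hk
    · rw [aeval_pow,
        (coeff_prod a (fun k : Fin m => aeval (ar z) (g (q k))) (fun k => h1 (q k))).2]
      rw [Finset.prod_congr rfl fun k _ => h2 (q k), Finset.prod_mul_distrib, Finset.prod_const,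
        Finset.card_univ, Fintype.card_fin]

/-- the powers have no jets of an order which is not divisible by `m` -/
theorem powE_empty (g : J → MvPolynomial σ K) {m : ℕ} (hm : 0 < m) (p : Pt K σ)
    (y : J → AlgebraicClosure K) (hy : y ≠ 0) {N : ℕ} (hN : ¬ m ∣ N) {L : ℕ} :
    (JE (powG g m) p (fun q => ∏ k, y (q k)) N L) = ∅ := by
  rw [Set.eq_empty_iff_forall_notMem]
  rintro z ⟨h0, h1, c, hc, h2⟩
  obtain ⟨j₀, hj₀⟩ := Function.ne_iff.1 hy
  have hj0 : y j₀ ≠ 0 := hj₀
  have hOS : z ∈ OS (powG g m) ({p} : Set (Pt K σ)) N L := by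
    refine ⟨funext h0, h1, fun _ => j₀, ?_⟩
    rw [h2]
    exact mul_ne_zero hc (Finset.prod_ne_zero_iff.mpr fun _ _ => hj0)
  exact hN ((mem_pow g hm _ _ z).1 hOS).1

theorem je_iff (g : J → MvPolynomial σ K) (p : Pt K σ) (y : J → AlgebraicClosure K) (a l : ℕ)
    (z : Pt K (σ × Fin (a + l + 1))) :
    z ∈ JE g p y a (a + l) ↔
      (fun i => z (eq (σ := σ) (m := a) (l := l) (Sum.inl i))) ∈ JE g p y a a := by
  have h1 : ∀ j, ∀ k ≤ a, PowerSeries.coeff k (aeval (ar z) (g j)) = PowerSeries.coeff k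
      (aeval (ar fun i => z (eq (σ := σ) (m := a) (l := l) (Sum.inl i))) (g j)) := by
    intro j
    refine coeff_congr a _ _ (fun i k hk => ?_) (g j)
    rw [coeff_ar, coeff_ar, dif_pos (by omega), dif_pos (by omega)]
    congr 1
  unfold JE
  simp only [Set.mem_ofPred_eq]
  refine and_congr ?_ (and_congr ?_ ?_)
  · refine forall_congr' fun i => ?_
    have h2 : z (i, 0) = z (eq (m := a) (l := l) (Sum.inl (i, 0))) := by
      congr 1
    rw [h2]
  · exact forall_congr' fun j => forall₂_congr fun k hk => by rw [h1 j k hk.le]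
  · refine exists_congr fun c => and_congr_right fun _ => forall_congr' fun j => ?_
    rw [h1 j a le_rfl]

end Pow

open Pow in
theorem t_POWM : S_POWM := by
  intro σ J _ _ g m hm p y b hmon
  obtain ⟨M, hL, hM⟩ := exists_meas ℂ
  obtain ⟨hy, ⟨N₀, hN₀, z₀, hz₀⟩, hb0, hE⟩ := hmon
  set pF : Pt ℂ σ := fun i => algebraMap ℂ (AlgebraicClosure ℂ) (p i) with hpF
  set yF : J → AlgebraicClosure ℂ := fun j => algebraMap ℂ (AlgebraicClosure ℂ) (y j) with hyF
  have hyF0 : yF ≠ 0 := by
    intro h1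
    apply hy
    funext j
    have h2 : algebraMap ℂ (AlgebraicClosure ℂ) (y j) = 0 := congrFun h1 j
    exact (map_eq_zero _).1 h2
  have hprod : (fun q : Fin m → J => algebraMap ℂ (AlgebraicClosure ℂ) (∏ k, y (q k))) =
      fun q => ∏ k, yF (q k) := by
    funext q
    rw [map_prod]
  have hJ : ∀ N, JetE g pF yF N = JE g pF yF N N := fun N => rfl
  have hJp : ∀ N, JetE (powG g m) pF (fun q => ∏ k, yF (q k)) N =
      JE (powG g m) pF (fun q => ∏ k, yF (q k)) N N := fun N => rfl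
  have hinj : Function.Injective (fun M : ℕ => m * M) := fun x x' h => Nat.eq_of_mul_eq_mul_left hm h
  have hle : ∀ a : ℕ, a ≤ m * a := fun a => Nat.le_mul_of_pos_left a hm
  unfold MonZeta
  rw [hprod]
  refine ⟨?_, ⟨m * N₀, Nat.mul_pos hm hN₀, ?_⟩, ?_, fun N hN => ?_⟩
  · obtain ⟨j, hj⟩ := Function.ne_iff.1 hy
    intro h
    have h1 : (fun q : Fin m → J => ∏ k, y (q k)) (fun _ => j) = 0 := by rw [h]; rfl
    have h2 : ∏ _k : Fin m, y j = 0 := h1
    rw [Finset.prod_eq_zero_iff] at h2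
    obtain ⟨_, _, h3⟩ := h2
    exact hj h3
  · rw [hJp]
    obtain ⟨l, hl⟩ : ∃ l, m * N₀ = N₀ + l := ⟨m * N₀ - N₀, by have := hle N₀; omega⟩
    have h1 : ∀ N', N' = N₀ + l → (JE g pF yF N₀ N').Nonempty := by
      rintro N' rfl
      refine ⟨fun q => Sum.elim z₀ (fun _ => 0) ((eq (σ := σ) (m := N₀) (l := l)).symm q), ?_⟩
      rw [je_iff]
      have h2 : (fun i => Sum.elim z₀ (fun _ => 0)
          ((eq (σ := σ) (m := N₀) (l := l)).symm (eq (Sum.inl i)))) = z₀ := by
        funext i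
        rw [Equiv.symm_apply_apply]
        rfl
      rw [h2]
      exact hz₀
    obtain ⟨z, hz⟩ := h1 _ hl
    exact ⟨z, (mem_powE g hm pF yF hyF0 N₀ z).2 hz⟩
  · have := Finsupp.mapDomain_apply hinj b 0
    simp only [mul_zero] at this
    rw [this]
    exact hb0
  · rw [hJp]
    by_cases hd : m ∣ N
    · obtain ⟨a, rfl⟩ := hd
      have ha : 0 < a := by
        rcases Nat.eq_zero_or_pos a with h0 | h0
        · rw [h0, mul_zero] at hN
          exact absurd hN (lt_irrefl _)
        · exact h0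
      have h1 : JE (powG g m) pF (fun q => ∏ k, yF (q k)) (m * a) (m * a) =
          JE g pF yF a (m * a) := by
        ext z
        exact mem_powE g hm pF yF hyF0 a z
      rw [h1]
      obtain ⟨l, hl⟩ : ∃ l, m * a = a + l := ⟨m * a - a, by have := hle a; omega⟩
      have h2 : ∀ N', N' = a + l → M.χ (σ × Fin (N' + 1)) (JE g pF yF a N') =
          M.χ _ (JE g pF yF a a) * M.L ^ (Fintype.card σ * l) := by
        rintro N' rfl
        have h := chi_split M (eq (σ := σ) (m := a) (l := l)) (JE g pF yF a (a + l))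
          (JE g pF yF a a) (Lift.constr_JetE g pF yF hyF0 a) (je_iff g pF yF a l)
        rw [h, Fintype.card_prod, Fintype.card_fin]
      have h3 := h2 _ hl
      have hsum : ∑ M ∈ (Finsupp.mapDomain (fun M => m * M) b).support with M ∣ m * a,
          (Finsupp.mapDomain (fun M => m * M) b) M = ∑ M ∈ b.support with M ∣ a, b M := by
        classical
        rw [Finsupp.mapDomain_support_of_injective hinj]
        have h4 : (b.support.image fun M => m * M).filter (· ∣ m * a) =
            (b.support.filter (· ∣ a)).image fun M => m * M := by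
          ext x
          simp only [Finset.mem_filter, Finset.mem_image]
          constructor
          · rintro ⟨⟨M, hM1, rfl⟩, hd⟩
            exact ⟨M, ⟨hM1, (Nat.mul_dvd_mul_iff_left hm).1 hd⟩, rfl⟩
          · rintro ⟨M, ⟨hM1, hd⟩, rfl⟩
            exact ⟨⟨M, hM1, rfl⟩, (Nat.mul_dvd_mul_iff_left hm).2 hd⟩
        rw [h4, Finset.sum_image fun x _ x' _ h => hinj h]
        refine Finset.sum_congr rfl fun M _ => ?_
        exact Finsupp.mapDomain_apply hinj b M
      obtain ⟨Q, k, hQ1, hQ⟩ := hE a ha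
      rw [← hM] at hQ
      refine ⟨Q * Polynomial.X ^ (Fintype.card σ * l), k, ?_, ?_⟩
      · rw [Polynomial.eval_mul, Polynomial.eval_pow, Polynomial.eval_X, one_pow, mul_one]
        rw [hsum]
        exact hQ1
      · rw [hJ] at hQ
        rw [← hM, h3, Polynomial.eval₂_mul, Polynomial.eval₂_X_pow, ← mul_assoc, ← hQ, hL]
        ring
    · rw [powE_empty g hm pF yF hyF0 hd]
      refine ⟨0, 0, ?_, ?_⟩
      · rw [Polynomial.eval_zero]
        symm
        apply Finset.sum_eq_zero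
        intro x hx
        exfalso
        rw [Finset.mem_filter] at hx
        classical
        have h1 := hx.1
        rw [Finsupp.mapDomain_support_of_injective hinj, Finset.mem_image] at h1
        obtain ⟨M, -, rfl⟩ := h1
        exact hd ((dvd_mul_right m M).trans hx.2)
      · rw [← hM, chi_empty, zero_mul, Polynomial.eval₂_zero, mul_zero]

end Pool.Agent.D0H9.CX
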