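import Pool.Agent.D0H67.CX.Stm5

/-! # CX: POWR, the substitution `T ↦ T ^ m` on the ring of rational series -/

set_option autoImplicit false

namespace Pool.Agent.D0H9.CX

open Pool.Agent.TH192.DT Pool.Agent.D0H67.CX

theorem expandS_eq {R : Type} [CommRing R] (m : ℕ) (hm : m ≠ 0) (F : PowerSeries R) :
    expandS m F = PowerSeries.expand m hm F := by
  ext N
  unfold expandS
  rw [PowerSeries.coeff_mk, PowerSeries.coeff_expand]

theorem geo_mul {R : Type} [CommRing R] (u : Rˣ) (a b : ℤ) (hb : 0 < b) :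
    (1 - PowerSeries.C ((u ^ a : Rˣ) : R) * PowerSeries.X ^ b.toNat) * geoU u a b = 1 := by
  unfold geoU
  apply PowerSeries.mul_invOfUnit
  have h : b.toNat ≠ 0 := by omega
  simp [h]

theorem expand_geo {R : Type} [CommRing R] (u : Rˣ) (a b : ℤ) (hb : 0 < b) (m : ℕ) (hm : m ≠ 0) :
    PowerSeries.expand m hm (geoU u a b) = geoU u a ((m : ℤ) * b) := by
  have hm0 : 0 < m := Nat.pos_of_ne_zero hm
  have hmb : 0 < (m : ℤ) * b := by positivity
  have h1 := congrArg (PowerSeries.expand m hm) (geo_mul u a b hb)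
  rw [map_mul, map_one, map_sub, map_one, map_mul, map_pow, PowerSeries.expand_C,
    PowerSeries.expand_X, ← pow_mul] at h1
  have h2 : m * b.toNat = ((m : ℤ) * b).toNat := by
    rw [Int.toNat_mul (by omega) hb.le, Int.toNat_natCast]
  rw [h2] at h1
  have h3 := geo_mul u a ((m : ℤ) * b) hmb
  calc PowerSeries.expand m hm (geoU u a b)
      = (1 * PowerSeries.expand m hm (geoU u a b)) := (one_mul _).symm
    _ = ((1 - PowerSeries.C ((u ^ a : Rˣ) : R) * PowerSeries.X ^ ((m : ℤ) * b).toNat) *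
          geoU u a ((m : ℤ) * b)) * PowerSeries.expand m hm (geoU u a b) := by rw [h3]
    _ = ((1 - PowerSeries.C ((u ^ a : Rˣ) : R) * PowerSeries.X ^ ((m : ℤ) * b).toNat) *
          PowerSeries.expand m hm (geoU u a b)) * geoU u a ((m : ℤ) * b) := by ring
    _ = geoU u a ((m : ℤ) * b) := by rw [h1, one_mul]

theorem t_POWR : S_POWR := by
  intro R _ u D hD m hm F hF
  have hm0 : m ≠ 0 := by omega
  rw [expandS_eq m hm0]
  unfold ratU at hF
  induction hF using Algebra.adjoin_induction with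
  | mem x hx =>
    rcases hx with hx | ⟨p, hp, rfl⟩
    · rw [Set.mem_singleton_iff] at hx
      rw [hx, PowerSeries.expand_X]
      have hX : (PowerSeries.X : PowerSeries R) ∈
          ratU u {q : ℤ × ℤ | ∃ p ∈ D, q = (p.1, (m : ℤ) * p.2)} :=
        Algebra.subset_adjoin (Or.inl rfl)
      exact pow_mem hX m
    · rw [expand_geo u p.1 p.2 (hD p hp) m hm0]
      exact Algebra.subset_adjoin (Or.inr ⟨(p.1, (m : ℤ) * p.2), ⟨p, hp, rfl⟩, rfl⟩)
  | algebraMap r =>
    rw [AlgHom.commutes]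
    exact Subalgebra.algebraMap_mem _ r
  | add x y _ _ hx hy =>
    rw [map_add]
    exact add_mem hx hy
  | mul x y _ _ hx hy =>
    rw [map_mul]
    exact mul_mem hx hy

end Pool.Agent.D0H9.CX
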