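import Pool.Agent.D0H67.CX.Stm5
import Pool.Agent.D0H87.CX.Rec

/-! # CX: POWZ, the series of a power -/

set_option autoImplicit false
set_option linter.unusedSectionVars false
set_option linter.unusedVariables false

namespace Pool.Agent.D0H9.CX

open MvPolynomial Pool.Agent.W428.MOT Pool.Agent.TH192.MT Pool.Agent.D0H67.SUB
  Pool.Agent.D0H67.SUB.Lev Pool.Agent.D0H67.SUB.Shift
open Pool.Agent.D0H67.CX Pool.Agent.D0H87.CX.Rec

namespace Pow

/-- the first coefficient of a product -/
theorem coeff_prod {A : Type} [CommRing A] {m : ℕ} (a : ℕ) (G : Fin m → PowerSeries A)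
    (hG : ∀ k, ∀ i < a, PowerSeries.coeff i (G k) = 0) :
    (∀ i < m * a, PowerSeries.coeff i (∏ k, G k) = 0) ∧
      PowerSeries.coeff (m * a) (∏ k, G k) = ∏ k, PowerSeries.coeff a (G k) := by
  have h1 : ∀ k, ∃ H : PowerSeries A, G k = PowerSeries.X ^ a * H := fun k =>
    PowerSeries.X_pow_dvd_iff.mpr (hG k)
  choose H hH using h1
  have h2 : ∏ k, G k = PowerSeries.X ^ (m * a) * ∏ k, H k := by
    rw [Finset.prod_congr rfl (fun k _ => hH k), Finset.prod_mul_distrib, Finset.prod_const,
      Finset.card_univ, Fintype.card_fin, ← pow_mul, mul_comm a m]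
  refine ⟨fun i hi => ?_, ?_⟩
  · rw [h2, PowerSeries.coeff_X_pow_mul', if_neg (by omega)]
  · rw [h2, PowerSeries.coeff_X_pow_mul', if_pos le_rfl, Nat.sub_self,
      PowerSeries.coeff_zero_eq_constantCoeff_apply, map_prod]
    refine Finset.prod_congr rfl fun k _ => ?_
    rw [hH k, PowerSeries.coeff_X_pow_mul', if_pos le_rfl, Nat.sub_self,
      PowerSeries.coeff_zero_eq_constantCoeff_apply]

variable {K : Type} [Field K] {σ J : Type}

theorem aeval_pow {A : Type} [CommRing A] [Algebra K A] (g : J → MvPolynomial σ K) (m : ℕ)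
    (q : Fin m → J) (γ : σ → A) : aeval γ (powG g m q) = ∏ k, aeval γ (g (q k)) := by
  unfold powG
  rw [map_prod]

/-- the orders of the powers -/
theorem mem_pow (g : J → MvPolynomial σ K) {m : ℕ} (hm : 0 < m) (V : Set (Pt K σ)) (N : ℕ)
    {L : ℕ} (z : Pt K (σ × Fin (L + 1))) :
    z ∈ OS (powG g m) V N L ↔ m ∣ N ∧ z ∈ OS g V (N / m) L := by
  constructor
  · rintro ⟨h0, h1, q, h2⟩
    have hex : ∃ a, ∃ j, PowerSeries.coeff a (aeval (ar z) (g j)) ≠ 0 := by
      by_contra hcon
      push Not at hcon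
      apply h2
      rw [aeval_pow]
      have h3 : aeval (ar z) (g (q ⟨0, hm⟩)) = 0 := by
        ext a
        rw [hcon a, map_zero]
      rw [Finset.prod_eq_zero (Finset.mem_univ (⟨0, hm⟩ : Fin m)) h3, map_zero]
    classical
    set a := Nat.find hex with ha
    obtain ⟨j₀, hj₀⟩ := Nat.find_spec hex
    have hlt : ∀ j, ∀ i < a, PowerSeries.coeff i (aeval (ar z) (g j)) = 0 := by
      intro j i hi
      have := Nat.find_min hex hi
      push Not at this
      exact this j
    have h3 := coeff_prod a (fun _ : Fin m => aeval (ar z) (g j₀)) (fun _ => hlt j₀)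
    have h4 := coeff_prod a (fun k : Fin m => aeval (ar z) (g (q k))) (fun k => hlt (q k))
    have h5 : PowerSeries.coeff (m * a) (∏ _k : Fin m, aeval (ar z) (g j₀)) ≠ 0 := by
      rw [h3.2]
      exact Finset.prod_ne_zero_iff.mpr fun _ _ => hj₀
    have h6 : N ≤ m * a := by
      by_contra hlt'
      apply h5
      have := h1 (fun _ => j₀) (m * a) (by omega)
      rwa [aeval_pow] at this
    have h7 : m * a ≤ N := by
      by_contra hlt'
      apply h2
      rw [aeval_pow]
      exact h4.1 N (by omega)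
    have h8 : N = m * a := le_antisymm h6 h7
    refine ⟨⟨a, h8⟩, h0, ?_, j₀, ?_⟩
    · rw [h8, Nat.mul_div_cancel_left _ hm]
      exact hlt
    · rw [h8, Nat.mul_div_cancel_left _ hm]
      exact hj₀
  · rintro ⟨⟨a, rfl⟩, h0, h1, j, h2⟩
    rw [Nat.mul_div_cancel_left _ hm] at h1 h2
    refine ⟨h0, fun q i hi => ?_, fun _ => j, ?_⟩
    · rw [aeval_pow]
      exact (coeff_prod a (fun k : Fin m => aeval (ar z) (g (q k))) (fun k => h1 (q k))).1 i hi
    · rw [aeval_pow, (coeff_prod a (fun _ : Fin m => aeval (ar z) (g j)) (fun _ => h1 j)).2]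
      exact Finset.prod_ne_zero_iff.mpr fun _ _ => h2

theorem chi_empty {ι : Type} [Fintype ι] {R : Type} [CommRing R] (M : Meas K R) :
    M.χ ι (∅ : Set (Pt K ι)) = 0 := by
  have h2 := M.add (∅ : Set (Pt K ι)) ∅ Constr.empty Constr.empty (Set.disjoint_empty _)
  rw [Set.empty_union] at h2
  exact left_eq_add.1 h2

end Pow

open Pow in
theorem t_POWZ : S_POWZ := by
  intro K _ σ J _ _ g m hm R _ M v hv
  have hJ : ∀ V N, JetF (powG g m) V N = OS (powG g m) V N N := fun V N => rfl
  have hJ' : ∀ V N, JetF g V N = OS g V N N := fun V N => rfl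
  have hz : Constr ({0} : Set (Pt K σ)) := constr_z
  ext N
  unfold expandS ZF
  rw [PowerSeries.coeff_mk, PowerSeries.coeff_mk, hJ]
  split_ifs with h
  · obtain ⟨a, rfl⟩ := h
    rw [Nat.mul_div_cancel_left _ hm, PowerSeries.coeff_mk, hJ']
    have h1 : OS (powG g m) ({0} : Set (Pt K σ)) (m * a) (m * a) = OS g {0} a (m * a) := by
      ext z
      rw [mem_pow g hm, Nat.mul_div_cancel_left _ hm]
      exact and_iff_right (dvd_mul_right m a)
    rw [h1]
    obtain ⟨l, hl⟩ : ∃ l, m * a = a + l := ⟨m * a - a, by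
      have : a ≤ m * a := Nat.le_mul_of_pos_left a hm
      omega⟩
    have h2 : ∀ N', N' = a + l → M.χ (σ × Fin (N' + 1)) (OS g {0} a N') *
        v ^ (Fintype.card σ * N') = M.χ _ (OS g {0} a a) * v ^ (Fintype.card σ * a) := by
      rintro N' rfl
      rw [chi_level g hz M a l, mul_add, pow_add]
      have h3 : M.L ^ (Fintype.card σ * l) * v ^ (Fintype.card σ * l) = 1 := by
        rw [← mul_pow, hv, one_pow]
      calc _ = M.χ _ (OS g {0} a a) * v ^ (Fintype.card σ * a) *
            (M.L ^ (Fintype.card σ * l) * v ^ (Fintype.card σ * l)) := by ring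
        _ = _ := by rw [h3, mul_one]
    exact h2 _ hl
  · have h1 : OS (powG g m) ({0} : Set (Pt K σ)) N N = ∅ := by
      rw [Set.eq_empty_iff_forall_notMem]
      intro z hz
      exact h ((mem_pow g hm _ _ z).1 hz).1
    rw [h1, chi_empty, zero_mul]

end Pool.Agent.D0H9.CX
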